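import Pool.Agent.H77.PUC.StmtsE

/-!
# PUC, module CNJ: conjugacy of the extensions of a valuation ring in a normal extension
-/

universe u

namespace PUC

open Polynomial
open scoped Pointwise

section CNJ

variable {k L : Type u} [Field k] [Field L] [Algebra k L]

theorem CNJ_nonunits (A B : ValuationSubring L)
    (hAB : ∀ c : k, algebraMap k L c ∈ A ↔ algebraMap k L c ∈ B) (c : k) :
    algebraMap k L c ∈ A.nonunits ↔ algebraMap k L c ∈ B.nonunits := by
  rw [ValuationSubring.mem_nonunits_iff_or, ValuationSubring.mem_nonunits_iff_or, ← map_inv₀, hAB]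

theorem CNJ_integral {k : Type u} {L : Type u} [Field k] [Field L] [Algebra k L] (R : Subring k)
    [Algebra R L] (hR : ∀ c : R, algebraMap R L c = algebraMap k L (c : k)) (b : L)
    (h : ∃ Q : k[X], Q.Monic ∧ (∀ i, Q.coeff i ∈ R) ∧ aeval b Q = 0) : IsIntegral R b := by
  obtain ⟨Q, hQ, hc, h0⟩ := h
  obtain ⟨q, hq, -, hm⟩ := lifts_and_natDegree_eq_and_monic (f := R.subtype) (p := Q)
    ((lifts_iff_coeff_lifts Q).2 fun n => ⟨⟨_, hc n⟩, rfl⟩) hQ
  refine ⟨q, hm, ?_⟩
  rw [← hq, aeval_def, eval₂_map] at h0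
  rw [← h0]
  congr 1
  ext c
  exact hR c

theorem CNJ_mem {k : Type u} {L : Type u} [Field k] [Field L] [Algebra k L] (R : Subring k)
    [Algebra R L] (hR : ∀ c : R, algebraMap R L c = algebraMap k L (c : k))
    (A : ValuationSubring L) (hA : ∀ c : k, c ∈ R → algebraMap k L c ∈ A) (x : L)
    (hx : IsIntegral R x) : x ∈ A := by
  obtain ⟨q, hq, hq0⟩ := hx
  have hφ : ∀ c : R, algebraMap R L c ∈ A := fun c => by
    rw [hR]; exact hA c c.2
  let φ : R →+* A := (algebraMap R L).codRestrict A.toSubring hφ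
  have h1 : IsIntegral A x := by
    refine ⟨q.map φ, hq.map φ, ?_⟩
    rw [eval₂_map]
    exact hq0
  obtain ⟨y, hy⟩ := (IsIntegrallyClosed.isIntegral_iff (R := A) (K := L)).1 h1
  rw [← hy]
  exact y.2

end CNJ

/-- CNJ -/
theorem sCnj (hLOC : SLoc.{u}) : SCnj.{u} := by
  intro k L _ _ _ _ _ _ A B hAB
  have : IsGalois k L := { }
  let R : Subring k := (A.comap (algebraMap k L)).toSubring
  have hRA : ∀ c : k, c ∈ R ↔ algebraMap k L c ∈ A := fun c => Iff.rfl
  have hRB : ∀ c : k, c ∈ R ↔ algebraMap k L c ∈ B := fun c => (hRA c).trans (hAB c)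
  let alg : Algebra R L := ((algebraMap k L).comp R.subtype).toAlgebra
  have halg : ∀ c : R, algebraMap R L c = algebraMap k L (c : k) := fun c => rfl
  let G := L ≃ₐ[k] L
  have hcomm : SMulCommClass G R L := ⟨fun g r x => by
    rw [Algebra.smul_def, Algebra.smul_def, halg, AlgEquiv.smul_def, AlgEquiv.smul_def, map_mul,
      AlgEquiv.commutes]⟩
  let S := integralClosure R L
  let topS : TopologicalSpace S := ⊥
  have hdisc : DiscreteTopology S := ⟨rfl⟩
  have hcont : ContinuousSMul G S := by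
    rw [continuousSMul_iff_stabilizer_isOpen]
    intro x
    have h1 := stabilizer_isOpen_of_isIntegral (K := k) (L := L) (x : L)
    convert h1 using 1
    ext g
    simp only [SetLike.mem_coe, MulAction.mem_stabilizer_iff]
    rw [← Subtype.coe_inj, integralClosure.coe_smul]
    exact MulAction.mem_stabilizer_iff.symm
  have hSA : ∀ x : S, (x : L) ∈ A := fun x =>
    CNJ_mem R halg A (fun c hc => (hRA c).1 hc) x x.2
  have hSB : ∀ x : S, (x : L) ∈ B := fun x =>
    CNJ_mem R halg B (fun c hc => (hRB c).1 hc) x x.2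
  have hinv : Algebra.IsInvariant R S G := by
    refine ⟨fun x hx => ?_⟩
    have h1 : (x : L) ∈ Set.range (algebraMap k L) := by
      rw [InfiniteGalois.mem_range_algebraMap_iff_fixed]
      intro g
      have := congrArg Subtype.val (hx g)
      rwa [integralClosure.coe_smul] at this
    obtain ⟨c, hc⟩ := h1
    have hcR : c ∈ R := by
      rw [hRA, hc]
      exact hSA x
    refine ⟨⟨c, hcR⟩, Subtype.ext ?_⟩
    exact hc
  let PA : Ideal S := (IsLocalRing.maximalIdeal A).comap
    ((algebraMap S L).codRestrict A.toSubring hSA : S →+* A)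
  let PB : Ideal S := (IsLocalRing.maximalIdeal B).comap
    ((algebraMap S L).codRestrict B.toSubring hSB : S →+* B)
  have hPA : ∀ x : S, x ∈ PA ↔ (x : L) ∈ A.nonunits := by
    intro x
    rw [ValuationSubring.mem_nonunits_iff_exists_mem_maximalIdeal]
    exact ⟨fun h => ⟨hSA x, h⟩, fun ⟨_, h⟩ => h⟩
  have hPB : ∀ x : S, x ∈ PB ↔ (x : L) ∈ B.nonunits := by
    intro x
    rw [ValuationSubring.mem_nonunits_iff_exists_mem_maximalIdeal]
    exact ⟨fun h => ⟨hSB x, h⟩, fun ⟨_, h⟩ => h⟩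
  have hPAp : PA.IsPrime := Ideal.comap_isPrime _ _
  have hPBp : PB.IsPrime := Ideal.comap_isPrime _ _
  have hunder : PA.under R = PB.under R := by
    ext c
    change algebraMap R S c ∈ PA ↔ algebraMap R S c ∈ PB
    rw [hPA, hPB]
    exact CNJ_nonunits A B hAB (c : k)
  obtain ⟨g, hg⟩ := Algebra.IsInvariant.exists_smul_of_under_eq_of_profinite (A := R) (B := S)
    (G := G) PA PB hunder
  have hgx : ∀ x : S, (x : L) ∈ B.nonunits ↔ (g⁻¹ : G) (x : L) ∈ A.nonunits := by
    intro x
    rw [← hPB, hg, Ideal.mem_pointwise_smul_iff_inv_smul_mem, hPA, integralClosure.coe_smul]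
    rfl
  refine ⟨g⁻¹, fun f => ⟨fun hf => ?_, fun hf => ?_⟩⟩
  · obtain ⟨b, c, hb, hc, hcu, hfe, hbi, hci⟩ := hLOC k L B R hRB f hf
    have hbS : IsIntegral R b := CNJ_integral R halg b hbi
    have hcS : IsIntegral R c := CNJ_integral R halg c hci
    have h1 : (g⁻¹ : G) b ∈ A := hSA ((g⁻¹ : G) • (⟨b, hbS⟩ : S))
    have h2 : (g⁻¹ : G) c ∈ A := hSA ((g⁻¹ : G) • (⟨c, hcS⟩ : S))
    have h3 : (g⁻¹ : G) c ∉ A.nonunits := fun h => hcu ((hgx ⟨c, hcS⟩).2 h)
    rw [hfe, map_div₀, div_eq_mul_inv]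
    refine A.mul_mem _ _ h1 ?_
    rw [ValuationSubring.mem_nonunits_iff_or] at h3
    push Not at h3
    exact h3.2
  · obtain ⟨b, c, hb, hc, hcu, hfe, hbi, hci⟩ := hLOC k L A R hRA _ hf
    have hbS : IsIntegral R b := CNJ_integral R halg b hbi
    have hcS : IsIntegral R c := CNJ_integral R halg c hci
    have h1 : (g : G) b ∈ B := hSB ((g : G) • (⟨b, hbS⟩ : S))
    have h2 : (g : G) c ∈ B := hSB ((g : G) • (⟨c, hcS⟩ : S))
    have h3 : (g : G) c ∉ B.nonunits := by
      intro h
      have h4 := (hgx ((g : G) • (⟨c, hcS⟩ : S))).1 h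
      rw [integralClosure.coe_smul] at h4
      apply hcu
      have h5 : (g⁻¹ : G) (g • c) = c := by
        change g⁻¹ • g • c = c
        rw [inv_smul_smul]
      rw [h5] at h4
      exact h4
    have h6 : f = (g : G) b / (g : G) c := by
      rw [← map_div₀, ← hfe]
      change f = g • g⁻¹ • f
      rw [smul_inv_smul]
    rw [h6, div_eq_mul_inv]
    refine B.mul_mem _ _ h1 ?_
    rw [ValuationSubring.mem_nonunits_iff_or] at h3
    push Not at h3
    exact h3.2

end PUC
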