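import Pool.Agent.H77.PUC.StmtsE

/-!
# PUC, module LOC: a valuation ring of an algebraic extension is a localisation of the integral
closure
-/

universe u

namespace PUC

open Polynomial

theorem LOC_zero {L : Type u} [Field L] (A : ValuationSubring L) : (0 : L) ∈ A.nonunits := by
  rw [ValuationSubring.mem_nonunits_iff, map_zero]
  exact zero_lt_one

theorem LOC_rec {L : Type u} [Field L] (A : ValuationSubring L) (S : Set L)
    (hadd : ∀ x ∈ S, ∀ y ∈ S, x + y ∈ S) (f : L) (hf : f ∈ A)
    (hS : ∀ (n : ℕ) (a : ℕ → L), (∀ i, a i ∈ S) →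
      ∑ i ∈ Finset.range (n + 2), a i * f ^ i = 0 → a (n + 1) * f ∈ S) :
    ∀ (n : ℕ) (a : ℕ → L), (∀ i, a i ∈ S) → ∑ i ∈ Finset.range (n + 1), a i * f ^ i = 0 →
      (∃ i ≤ n, a i ∉ A.nonunits) →
      ∃ b c : L, b ∈ S ∧ c ∈ S ∧ c ∉ A.nonunits ∧ f = b / c := by
  intro n
  induction n with
  | zero =>
    intro a _ h0 ⟨i, hi, hi2⟩
    exfalso
    obtain rfl : i = 0 := by omega
    simp at h0
    rw [h0] at hi2
    exact hi2 (LOC_zero A)
  | succ n ih =>
    intro a ha h0 ⟨i, hi, hi2⟩
    have h1 := hS n a ha h0
    by_cases hc : a (n + 1) ∈ A.nonunits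
    · have h2 : a (n + 1) * f ∈ A.nonunits := by
        rw [ValuationSubring.mem_nonunits_iff] at *
        rw [map_mul]
        have hg' := (A.valuation_le_one_iff f).2 hf
        calc A.valuation (a (n + 1)) * A.valuation f ≤ A.valuation (a (n + 1)) * 1 := by gcongr
          _ = A.valuation (a (n + 1)) := mul_one _
          _ < 1 := hc
      have hi3 : i ≤ n := by
        rcases Nat.lt_or_ge n i with h | h
        · obtain rfl : i = n + 1 := by omega
          exact absurd hc hi2
        · exact h
      refine ih (fun j => if j = n then a (n + 1) * f + a n else a j) ?_ ?_ ⟨i, hi3, ?_⟩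
      · intro j
        split_ifs
        · exact hadd _ h1 _ (ha n)
        · exact ha j
      · rw [Finset.sum_range_succ, Finset.sum_range_succ] at h0
        rw [Finset.sum_range_succ]
        rw [Finset.sum_congr rfl (g := fun j => a j * f ^ j)]
        · rw [if_pos rfl, ← h0]
          ring
        · intro j hj
          rw [if_neg (Finset.mem_range.1 hj).ne]
      · split_ifs with h
        · subst h
          intro h3
          apply hi2
          have := (A.nonunits).sub_mem h3 h2
          simpa using this
        · exact hi2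
    · refine ⟨a (n + 1) * f, a (n + 1), h1, ha _, hc, ?_⟩
      have : a (n + 1) ≠ 0 := by
        intro h
        rw [h] at hc
        exact hc (LOC_zero A)
      field_simp

/-- LOC -/
theorem sLoc : SLoc.{u} := by
  intro k L _ _ _ _ A R hR f hf
  let alg : Algebra R L := ((algebraMap k L).comp R.subtype).toAlgebra
  have halg : ∀ c : R, algebraMap R L c = algebraMap k L (c : k) := fun c => rfl
  set S := integralClosure R L with hSdef
  have hSA : ∀ x ∈ S, x ∈ A := by
    rintro x ⟨q, hq, hq0⟩
    have hφ : ∀ c : R, algebraMap R L c ∈ A := fun c => by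
      rw [halg]; exact (hR c).1 c.2
    let φ : R →+* A := (algebraMap R L).codRestrict A.toSubring hφ
    have h1 : IsIntegral A x := by
      refine ⟨q.map φ, hq.map φ, ?_⟩
      rw [eval₂_map]
      exact hq0
    obtain ⟨y, hy⟩ := (IsIntegrallyClosed.isIntegral_iff (R := A) (K := L)).1 h1
    rw [← hy]
    exact y.2
  have hQ : ∀ x ∈ S, ∃ Q : k[X], Q.Monic ∧ (∀ i, Q.coeff i ∈ R) ∧ aeval x Q = 0 := by
    rintro x ⟨q, hq, hq0⟩
    refine ⟨q.map R.subtype, hq.map _, ?_, ?_⟩
    · intro i
      rw [coeff_map]
      exact (q.coeff i).2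
    · rw [aeval_def, eval₂_map]
      exact hq0
  have key : ∃ b c : L, b ∈ S ∧ c ∈ S ∧ c ∉ A.nonunits ∧ f = b / c := by
    have hint : ∀ (n : ℕ) (a : ℕ → L), (∀ i, a i ∈ S) →
        ∑ i ∈ Finset.range (n + 2), a i * f ^ i = 0 → a (n + 1) * f ∈ S := by
      intro n a ha h0
      by_cases hz : a (n + 1) = 0
      · rw [hz, zero_mul]
        exact S.zero_mem
      · let P : S[X] := ∑ i ∈ Finset.range (n + 2), C (⟨a i, ha i⟩ : S) * X ^ i
        have hcoef : P.coeff (n + 1) = ⟨a (n + 1), ha _⟩ := by
          simp only [P, finsetSum_coeff, coeff_C_mul_X_pow]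
          rw [Finset.sum_eq_single (n + 1)]
          · simp
          · intro j _ hj
            rw [if_neg (Ne.symm hj)]
          · intro h
            exact absurd (Finset.mem_range.2 (by omega)) h
        have hne : (⟨a (n + 1), ha _⟩ : S) ≠ 0 := by
          intro h
          exact hz (congrArg Subtype.val h)
        have hdeg : P.natDegree = n + 1 := by
          apply le_antisymm
          · refine natDegree_sum_le_of_forall_le _ _ fun i hi => ?_
            refine (natDegree_C_mul_X_pow_le _ _).trans ?_
            have := Finset.mem_range.1 hi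
            omega
          · exact le_natDegree_of_ne_zero (by rw [hcoef]; exact hne)
        have hev : P.eval₂ (algebraMap S L) f = 0 := by
          simp only [P, eval₂_finsetSum, eval₂_mul, eval₂_C, eval₂_pow, eval₂_X]
          exact h0
        have h1 := (algebraMap S L).isIntegralElem_leadingCoeff_mul P f hev
        rw [leadingCoeff, hdeg, hcoef] at h1
        have h2 : IsIntegral S (a (n + 1) * f) := h1
        exact isIntegral_trans (R := R) (A := S) _ h2
    have halgf : IsAlgebraic k f := Algebra.IsAlgebraic.isAlgebraic f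
    obtain ⟨p, hp0, hpf⟩ := halgf
    have hsupp : p.support.Nonempty := by
      rw [Finset.nonempty_iff_ne_empty]
      intro h
      exact hp0 (Polynomial.support_eq_empty.1 h)
    obtain ⟨j, hj, hjmax⟩ := Finset.exists_max_image p.support
      (fun i => A.valuation (algebraMap k L (p.coeff i))) hsupp
    have hcj : p.coeff j ≠ 0 := mem_support_iff.1 hj
    have hcj' : algebraMap k L (p.coeff j) ≠ 0 := by
      rwa [ne_eq, map_eq_zero]
    have hmem : ∀ i, p.coeff i / p.coeff j ∈ R := by
      intro i
      rw [hR, map_div₀, ← A.valuation_le_one_iff, map_div₀]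
      by_cases hi : i ∈ p.support
      · exact div_le_one_of_le₀ (hjmax i hi) zero_le
      · rw [notMem_support_iff.1 hi, map_zero, map_zero, zero_div]
        exact zero_le_one
    refine LOC_rec A (S : Set L) (fun x hx y hy => S.add_mem hx hy) f hf hint p.natDegree
      (fun i => algebraMap k L (p.coeff i / p.coeff j)) ?_ ?_ ⟨j, ?_, ?_⟩
    · intro i
      have : algebraMap R L ⟨_, hmem i⟩ ∈ S := S.algebraMap_mem _
      rw [halg] at this
      exact this
    · have h1 : ∑ i ∈ Finset.range (p.natDegree + 1), algebraMap k L (p.coeff i) * f ^ i = 0 := by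
        rw [aeval_eq_sum_range] at hpf
        rw [← hpf]
        exact Finset.sum_congr rfl fun i _ => by rw [Algebra.smul_def]
      have h2 : ∀ i, algebraMap k L (p.coeff i / p.coeff j) * f ^ i =
          (algebraMap k L (p.coeff j))⁻¹ * (algebraMap k L (p.coeff i) * f ^ i) := by
        intro i
        rw [map_div₀]
        field_simp
      simp only [h2, ← Finset.mul_sum]
      rw [h1, mul_zero]
    · exact le_natDegree_of_mem_supp j hj
    · rw [div_self hcj, map_one]
      intro h
      rw [ValuationSubring.mem_nonunits_iff, map_one] at h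
      exact lt_irrefl _ h
  obtain ⟨b, c, hb, hc, hcu, hf2⟩ := key
  exact ⟨b, c, hSA b hb, hSA c hc, hcu, hf2, hQ b hb, hQ c hc⟩

end PUC
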